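import Pool.Agent.Helper39.C75.LineA

/-!
# The induction over words with general convex regions (MP_c75db0_gt, helper39)

A region is a subset of `ℂ³` which is invariant under nonzero scalars, does not meet `v 0 = 0` and is
convex in the chart `v 0 = 1`; for instance the intersection of finitely many (or infinitely many)
sets `H > 0` with Hermitian forms `H ≤ 0` on `v 0 = 0`.

Every block may be treated in one of three ways: with its own reference vector, by comparison with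
the coordinate `v 0`, or by comparison with another block of the same state and smaller rank
(for superblocks `A ^ n`).
-/

open Set Filter Topology Complex

namespace Pool.Agent.Helper39.C75

/-- admissible regions -/
structure IsRegion (R : Set (Fin 3 → ℂ)) : Prop where
  ne0 : ∀ v ∈ R, v 0 ≠ 0
  smul : ∀ (c : ℂ) (v : Fin 3 → ℂ), c ≠ 0 → v ∈ R → c • v ∈ R
  comb : ∀ (s : ℝ) (v v' : Fin 3 → ℂ), 0 ≤ s → v ∈ R → v' ∈ R → v 0 = 1 → v' 0 = 1 →
    v + (s : ℂ) • v' ∈ R

/-- a Hermitian form `≤ 0` on `v 0 = 0` gives a region -/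
theorem isRegion_of_hform {H : (Fin 3 → ℂ) → ℝ} (hH : IsHForm H)
    (hneg : ∀ v, v 0 = 0 → H v ≤ 0) : IsRegion {v | 0 < H v} := by
  refine ⟨fun v hv h0 => absurd (hneg v h0) (not_le.2 hv), fun c v hc hv => ?_,
    fun s v v' hs hv hv' h1 h1' => ?_⟩
  · show 0 < H (c • v)
    rw [hH.smul]
    exact mul_pos (pow_pos (norm_pos_iff.2 hc) 2) hv
  · show 0 < H (v + (s : ℂ) • v')
    have hd : H (v - v') ≤ 0 := hneg _ (by rw [Pi.sub_apply, h1, h1', sub_self])
    have hv0 : 0 < H v := hv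
    have hv0' : 0 < H v' := hv'
    rw [hH.comb]
    nlinarith [mul_nonneg hs hv0.le, mul_nonneg (add_nonneg hs (sq_nonneg s)) hv0'.le,
      mul_nonneg hs (neg_nonneg.2 hd)]

/-- intersections of regions are regions -/
theorem isRegion_iInter {ι : Type*} [Nonempty ι] {R : ι → Set (Fin 3 → ℂ)}
    (h : ∀ i, IsRegion (R i)) : IsRegion (⋂ i, R i) := by
  obtain ⟨i₀⟩ := ‹Nonempty ι›
  refine ⟨fun v hv => (h i₀).ne0 v (mem_iInter.1 hv i₀), fun c v hc hv => ?_,
    fun s v v' hs hv hv' h1 h1' => ?_⟩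
  · exact mem_iInter.2 fun i => (h i).smul c v hc (mem_iInter.1 hv i)
  · exact mem_iInter.2 fun i => (h i).comb s v v' hs (mem_iInter.1 hv i) (mem_iInter.1 hv' i) h1 h1'

theorem isRegion_inter {R R' : Set (Fin 3 → ℂ)} (h : IsRegion R) (h' : IsRegion R') :
    IsRegion (R ∩ R') :=
  ⟨fun v hv => h.ne0 v hv.1, fun c v hc hv => ⟨h.smul c v hc hv.1, h'.smul c v hc hv.2⟩,
    fun s v v' hs hv hv' h1 h1' =>
      ⟨h.comb s v v' hs hv.1 hv'.1 h1 h1', h'.comb s v v' hs hv.2 hv'.2 h1 h1'⟩⟩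

/-- LEMMA B for regions. -/
theorem lemmaB' {R : Set (Fin 3 → ℂ)} (hR : IsRegion R) (D : (Fin 3 → ℂ) →ₗ[ℂ] ℂ)
    (hD : ∀ v ∈ R, D v ≠ 0) {v r : Fin 3 → ℂ} (hv : v ∈ R) (hr : r ∈ R) :
    D v * r 0 / (D r * v 0) ∈ slitPlane := by
  have hv0 : v 0 ≠ 0 := hR.ne0 v hv
  have hr0 : r 0 ≠ 0 := hR.ne0 r hr
  have hDr : D r ≠ 0 := hD r hr
  by_contra hcon
  rw [mem_slitPlane_iff] at hcon
  push Not at hcon
  set y := D v * r 0 / (D r * v 0) with hy
  have hyr : y = ((y.re : ℝ) : ℂ) := by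
    apply Complex.ext <;> simp [hcon.2]
  obtain ⟨s, hs, hsy⟩ : ∃ s : ℝ, 0 ≤ s ∧ y = -(s : ℂ) := ⟨-y.re, by linarith [hcon.1], by
    rw [hyr]; simp⟩
  have hmem : (v 0)⁻¹ • v + (s : ℂ) • ((r 0)⁻¹ • r) ∈ R := by
    refine hR.comb s _ _ hs (hR.smul _ _ (inv_ne_zero hv0) hv) (hR.smul _ _ (inv_ne_zero hr0) hr)
      ?_ ?_
    · rw [Pi.smul_apply, smul_eq_mul, inv_mul_cancel₀ hv0]
    · rw [Pi.smul_apply, smul_eq_mul, inv_mul_cancel₀ hr0]
  apply hD _ hmem
  have h1 : D v * r 0 = -(s : ℂ) * (D r * v 0) := by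
    rw [← hsy, hy, div_mul_cancel₀]
    exact mul_ne_zero hDr hv0
  have h2 : (v 0)⁻¹ * D v = -(s : ℂ) * ((r 0)⁻¹ * D r) := by
    field_simp
    linear_combination h1
  simp only [map_add, map_smul, smul_eq_mul]
  rw [h2]
  ring

/-- A certificate at one point `w` of the frontier: regions. -/
structure RCert {S B : Type*} (src tgt : B → S) (M : B → ℂ → Matrix (Fin 3) (Fin 3) ℂ)
    (Start : S → (ℂ → Fin 3 → ℂ) → Prop) (w : ℂ) (R : S → Set (Fin 3 → ℂ)) : Prop where
  reg : ∀ s, IsRegion (R s)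
  block : ∀ b v, v ∈ R (src b) → (M b w).mulVec v ∈ R (tgt b)
  start : ∀ s v, Start s v → v w ∈ R s

/-- The three ways to treat a block. -/
inductive RTreat {S B : Type*} (src tgt : B → S) (M : B → ℂ → Matrix (Fin 3) (Fin 3) ℂ)
    (Start : S → (ℂ → Fin 3 → ℂ) → Prop) (Ω : Set ℂ) (rk : B → ℕ) (b : B) : Prop
  | ref (r : ℂ → Fin 3 → ℂ) (hr : Reg Ω r) (h0 : ∀ w ∈ closure Ω, r w 0 ≠ 0)
      (hb : ∀ w ∈ closure Ω, (M b w).mulVec (r w) 0 ≠ 0)
      (hH : ∀ w ∈ frontier Ω, ∃ R, RCert src tgt M Start w R ∧ r w ∈ R (src b))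
  | self (g : ℂ → ℂ) (hgc : ContinuousOn g (closure Ω)) (hgd : DifferentiableOn ℂ g Ω)
      (hg0 : ∀ w ∈ closure Ω, g w ≠ 0)
      (h : ∀ w ∈ frontier Ω, ∃ R, RCert src tgt M Start w R ∧
        ∀ v ∈ R (src b), (M b w).mulVec v 0 / (g w * v 0) ∈ slitPlane)
  | comp (b' : B) (hs : src b' = src b) (hlt : rk b' < rk b)
      (g : ℂ → ℂ) (hgc : ContinuousOn g (closure Ω)) (hgd : DifferentiableOn ℂ g Ω)
      (hg0 : ∀ w ∈ closure Ω, g w ≠ 0)
      (h : ∀ w ∈ frontier Ω, ∃ R, RCert src tgt M Start w R ∧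
        ∀ v ∈ R (src b), (M b w).mulVec v 0 / (g w * (M b' w).mulVec v 0) ∈ slitPlane)

theorem chain_key {S B : Type*} (src tgt : B → S)
    (M : B → ℂ → Matrix (Fin 3) (Fin 3) ℂ) (Start : S → (ℂ → Fin 3 → ℂ) → Prop)
    {Ω : Set ℂ} (hΩ : IsOpen Ω) (hb : Bornology.IsBounded Ω)
    (hM : ∀ b i j, ContinuousOn (fun w => M b w i j) (closure Ω) ∧
      DifferentiableOn ℂ (fun w => M b w i j) Ω)
    (hstart : ∀ s v, Start s v → Reg Ω v ∧ ∀ w ∈ closure Ω, v w 0 ≠ 0)
    (rk : B → ℕ) (htreat : ∀ b, RTreat src tgt M Start Ω rk b) :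
    ∀ s v, Chain src tgt M Start s v → Reg Ω v ∧ (∀ w ∈ closure Ω, v w 0 ≠ 0) ∧
      (∀ w ∈ frontier Ω, ∀ R : S → Set (Fin 3 → ℂ), RCert src tgt M Start w R → v w ∈ R s) := by
  intro s v hc
  induction hc with
  | start h => exact ⟨(hstart _ _ h).1, (hstart _ _ h).2, fun w _ R hR => hR.start _ _ h⟩
  | @step v b _ ih =>
    obtain ⟨hreg, hzf, hpos⟩ := ih
    refine ⟨hreg.mulVec (hM b), ?_, fun w hw R hR => hR.block b _ (hpos w hw R hR)⟩
    have main : ∀ n : ℕ, ∀ b' : B, src b' = src b → rk b' = n →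
        ∀ w ∈ closure Ω, (M b' w).mulVec (v w) 0 ≠ 0 := by
      intro n
      induction n using Nat.strong_induction_on with
      | _ n IH =>
        intro b₁ hs₁ hn
        have hreg' : Reg Ω (fun w => (M b₁ w).mulVec (v w)) := hreg.mulVec (hM b₁)
        have hpos₁ : ∀ w ∈ frontier Ω, ∀ R : S → Set (Fin 3 → ℂ),
            RCert src tgt M Start w R → v w ∈ R (src b₁) := by
          intro w hw R hR
          rw [hs₁]
          exact hpos w hw R hR
        rcases htreat b₁ with ⟨r, hr, h0, hbr, hH⟩ | ⟨g, hgc, hgd, hg0, h⟩ |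
          ⟨b', hs, hlt, g, hgc, hgd, hg0, h⟩
        · have hregr : Reg Ω (fun w => (M b₁ w).mulVec (r w)) := hr.mulVec (hM b₁)
          have hslit := lemmaA hΩ hb
            (q := fun w => (M b₁ w).mulVec (v w) 0 * r w 0 /
              ((M b₁ w).mulVec (r w) 0 * v w 0))
            ((hreg' 0).1.mul (hr 0).1 |>.div ((hregr 0).1.mul (hreg 0).1)
              fun w hw => mul_ne_zero (hbr w hw) (hzf w hw))
            ((hreg' 0).2.mul (hr 0).2 |>.div ((hregr 0).2.mul (hreg 0).2)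
              fun w hw => mul_ne_zero (hbr w (subset_closure hw)) (hzf w (subset_closure hw)))
            (by
              intro w hw
              obtain ⟨R, hC, hHr⟩ := hH w hw
              exact lemmaB' (hC.reg (src b₁))
                ((LinearMap.proj 0).comp (Matrix.mulVecLin (M b₁ w)))
                (fun v hv => (hC.reg (tgt b₁)).ne0 _ (hC.block b₁ v hv))
                (hpos₁ w hw R hC) hHr)
          intro w hw hz
          apply slitPlane_ne_zero (hslit w hw)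
          show (M b₁ w).mulVec (v w) 0 * r w 0 / ((M b₁ w).mulVec (r w) 0 * v w 0) = 0
          rw [hz, zero_mul, zero_div]
        · have hslit := lemmaA hΩ hb
            (q := fun w => (M b₁ w).mulVec (v w) 0 / (g w * v w 0))
            ((hreg' 0).1.div (hgc.mul (hreg 0).1)
              fun w hw => mul_ne_zero (hg0 w hw) (hzf w hw))
            ((hreg' 0).2.div (hgd.mul (hreg 0).2)
              fun w hw => mul_ne_zero (hg0 w (subset_closure hw)) (hzf w (subset_closure hw)))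
            (by
              intro w hw
              obtain ⟨R, hC, hv⟩ := h w hw
              exact hv _ (hpos₁ w hw R hC))
          intro w hw hz
          apply slitPlane_ne_zero (hslit w hw)
          show (M b₁ w).mulVec (v w) 0 / (g w * v w 0) = 0
          rw [hz, zero_div]
        · have hprev := IH (rk b') (hn ▸ hlt) b' (hs.trans hs₁) rfl
          have hreg'' : Reg Ω (fun w => (M b' w).mulVec (v w)) := hreg.mulVec (hM b')
          have hslit := lemmaA hΩ hb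
            (q := fun w => (M b₁ w).mulVec (v w) 0 / (g w * (M b' w).mulVec (v w) 0))
            ((hreg' 0).1.div (hgc.mul (hreg'' 0).1)
              fun w hw => mul_ne_zero (hg0 w hw) (hprev w hw))
            ((hreg' 0).2.div (hgd.mul (hreg'' 0).2)
              fun w hw => mul_ne_zero (hg0 w (subset_closure hw)) (hprev w (subset_closure hw)))
            (by
              intro w hw
              obtain ⟨R, hC, hv⟩ := h w hw
              exact hv _ (hpos₁ w hw R hC))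
          intro w hw hz
          apply slitPlane_ne_zero (hslit w hw)
          show (M b₁ w).mulVec (v w) 0 / (g w * (M b' w).mulVec (v w) 0) = 0
          rw [hz, zero_div]
    exact main (rk b) b rfl rfl

/-- THE INDUCTION OVER WORDS: zero freeness. -/
theorem zeroFree_of_regions {S B : Type*} (src tgt : B → S)
    (M : B → ℂ → Matrix (Fin 3) (Fin 3) ℂ) (Start : S → (ℂ → Fin 3 → ℂ) → Prop)
    {Ω : Set ℂ} (hΩ : IsOpen Ω) (hb : Bornology.IsBounded Ω)
    (hM : ∀ b i j, ContinuousOn (fun w => M b w i j) (closure Ω) ∧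
      DifferentiableOn ℂ (fun w => M b w i j) Ω)
    (hstart : ∀ s v, Start s v → Reg Ω v ∧ ∀ w ∈ closure Ω, v w 0 ≠ 0)
    (rk : B → ℕ) (htreat : ∀ b, RTreat src tgt M Start Ω rk b) :
    ∀ s v, Chain src tgt M Start s v → ∀ w ∈ closure Ω, v w 0 ≠ 0 :=
  fun s v hc => (chain_key src tgt M Start hΩ hb hM hstart rk htreat s v hc).2.1

/-- THE BOUND: if the regions at the frontier are uniformly bounded in the chart, then so are all
chain vectors on the closure. -/
theorem bound_of_regions {S B : Type*} (src tgt : B → S)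
    (M : B → ℂ → Matrix (Fin 3) (Fin 3) ℂ) (Start : S → (ℂ → Fin 3 → ℂ) → Prop)
    {Ω : Set ℂ} (hΩ : IsOpen Ω) (hb : Bornology.IsBounded Ω)
    (hM : ∀ b i j, ContinuousOn (fun w => M b w i j) (closure Ω) ∧
      DifferentiableOn ℂ (fun w => M b w i j) Ω)
    (hstart : ∀ s v, Start s v → Reg Ω v ∧ ∀ w ∈ closure Ω, v w 0 ≠ 0)
    (rk : B → ℕ) (htreat : ∀ b, RTreat src tgt M Start Ω rk b) (s : S) (C : ℝ) (j : Fin 3)
    (hC : ∀ w ∈ frontier Ω, ∃ R, RCert src tgt M Start w R ∧ ∀ v ∈ R s, ‖v j‖ ≤ C * ‖v 0‖) :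
    ∀ v, Chain src tgt M Start s v → ∀ w ∈ closure Ω, ‖v w j‖ ≤ C * ‖v w 0‖ := by
  intro v hc w hw
  obtain ⟨hreg, hzf, hpos⟩ := chain_key src tgt M Start hΩ hb hM hstart rk htreat s v hc
  have hd : DiffContOnCl ℂ (fun w => v w j / v w 0) Ω :=
    ⟨(hreg j).2.div (hreg 0).2 fun w hw => hzf w (subset_closure hw),
      (hreg j).1.div (hreg 0).1 hzf⟩
  have h1 := Complex.norm_le_of_forall_mem_frontier_norm_le hb hd (C := C) (by
    intro w hw
    obtain ⟨R, hR, hv⟩ := hC w hw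
    have h2 := hv _ (hpos w hw R hR)
    have h3 : 0 < ‖v w 0‖ := norm_pos_iff.2 (hzf w hw.1)
    rw [norm_div, div_le_iff₀ h3]
    exact h2) hw
  have h3 : 0 < ‖v w 0‖ := norm_pos_iff.2 (hzf w hw)
  rw [norm_div, div_le_iff₀ h3] at h1
  exact h1

end Pool.Agent.Helper39.C75
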