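import Pool.Agent.C75W.Im

/-!
# From the boundary to the inside (MP_c75db0_gt, helper39)

`lemmaA`: a function holomorphic on a bounded open set, continuous on the closure and with values in
the slit plane on the frontier has values in the slit plane on the whole closure.

`lemmaB`: ratio of two values of a linear functional without zero on a Hermitian ball.

`zeroFree_of_certificate`: the induction over words.
-/

open Set Filter Topology Complex

namespace Pool.Agent.Helper39.C75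

/-- LEMMA A (open mapping theorem). -/
theorem lemmaA {Ω : Set ℂ} (hΩ : IsOpen Ω) (hb : Bornology.IsBounded Ω) {q : ℂ → ℂ}
    (hc : ContinuousOn q (closure Ω)) (hd : DifferentiableOn ℂ q Ω)
    (hf : ∀ w ∈ frontier Ω, q w ∈ slitPlane) : ∀ w ∈ closure Ω, q w ∈ slitPlane := by
  by_contra hcon
  push Not at hcon
  obtain ⟨w₁, hw₁, hq₁⟩ := hcon
  have hK : IsCompact (closure Ω) := Metric.isCompact_of_isClosed_isBounded isClosed_closure hb.closure
  have hBc : IsCompact (closure Ω ∩ q ⁻¹' slitPlaneᶜ) :=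
    hK.of_isClosed_subset
      (hc.preimage_isClosed_of_isClosed isClosed_closure isOpen_slitPlane.isClosed_compl)
      inter_subset_left
  obtain ⟨w₀, hw₀, hmin⟩ := hBc.exists_isMinOn ⟨w₁, hw₁, hq₁⟩
    (Complex.continuous_re.comp_continuousOn (hc.mono inter_subset_left))
  have hmin' : ∀ w ∈ closure Ω, q w ∉ slitPlane → (q w₀).re ≤ (q w).re := fun w h1 h2 =>
    hmin ⟨h1, h2⟩
  have hin : ∀ w ∈ closure Ω, q w ∉ slitPlane → w ∈ Ω := by
    intro w h1 h2
    by_contra h3
    exact h2 (hf w ⟨h1, by rwa [hΩ.interior_eq]⟩)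
  have h0 : ¬ (0 < (q w₀).re ∨ (q w₀).im ≠ 0) := hw₀.2
  push Not at h0
  -- the level set
  set Z : Set ℂ := closure Ω ∩ q ⁻¹' {q w₀} with hZ
  have hZc : IsClosed Z := hc.preimage_isClosed_of_isClosed isClosed_closure isClosed_singleton
  have hZo : IsOpen Z := by
    rw [isOpen_iff_mem_nhds]
    rintro z ⟨hz, hqz⟩
    have hqz' : q z = q w₀ := hqz
    have hzΩ : z ∈ Ω := hin z hz (by rw [hqz']; exact hw₀.2)
    have han : AnalyticAt ℂ q z := hd.analyticAt (hΩ.mem_nhds hzΩ)
    rcases han.eventually_constant_or_nhds_le_map_nhds with h | h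
    · filter_upwards [h, hΩ.mem_nhds hzΩ] with w hw hwΩ
      exact ⟨subset_closure hwΩ, by rw [mem_preimage, hw, hqz']; rfl⟩
    · exfalso
      have him : q '' Ω ∈ 𝓝 (q z) := h (image_mem_map (hΩ.mem_nhds hzΩ))
      obtain ⟨ε, hε, hball⟩ := Metric.mem_nhds_iff.1 him
      have hmem : q z - (ε / 2 : ℝ) ∈ Metric.ball (q z) ε := by
        rw [Metric.mem_ball, dist_eq, sub_sub_cancel_left, norm_neg, norm_real, Real.norm_eq_abs,
          abs_of_pos (half_pos hε)]
        exact half_lt_self hε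
      obtain ⟨w, hwΩ, hw⟩ := hball hmem
      have hre : (q w).re = (q w₀).re - ε / 2 := by
        rw [hw, hqz']; simp
      have him' : (q w).im = 0 := by
        rw [hw, hqz']; simp [h0.2]
      have hns : q w ∉ slitPlane := by
        rw [mem_slitPlane_iff]
        push Not
        exact ⟨by rw [hre]; linarith [h0.1], him'⟩
      have := hmin' w (subset_closure hwΩ) hns
      linarith
  have hZne : Z.Nonempty := ⟨w₀, hw₀.1, rfl⟩
  have hZu : Z = univ := IsClopen.eq_univ ⟨hZc, hZo⟩ hZne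
  have : IsCompact (univ : Set ℂ) := by
    rw [← hZu]
    exact hK.of_isClosed_subset hZc inter_subset_left
  exact noncompact_univ ℂ this

/-- A real valued function on a complex vector space which behaves like a Hermitian form. -/
structure IsHForm {V : Type*} [AddCommGroup V] [Module ℂ V] (H : V → ℝ) : Prop where
  smul : ∀ (c : ℂ) (v : V), H (c • v) = ‖c‖ ^ 2 * H v
  comb : ∀ (s : ℝ) (v v' : V),
    H (v + (s : ℂ) • v') = (1 + s) * H v + (s + s ^ 2) * H v' - s * H (v - v')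

/-- LEMMA B: `D` linear without zero on `{H > 0}`, `H ≤ 0` on `{ℓ = 0}`. -/
theorem lemmaB {V : Type*} [AddCommGroup V] [Module ℂ V] {H : V → ℝ} (hH : IsHForm H)
    (ℓ D : V →ₗ[ℂ] ℂ) (hneg : ∀ v, ℓ v = 0 → H v ≤ 0) (hD : ∀ v, 0 < H v → D v ≠ 0)
    {v r : V} (hv : 0 < H v) (hr : 0 ≤ H r) (hr0 : ℓ r ≠ 0) (hDr : D r ≠ 0) :
    D v * ℓ r / (D r * ℓ v) ∈ slitPlane := by
  have hv0 : ℓ v ≠ 0 := fun h => absurd (hneg v h) (not_le.2 hv)
  by_contra hcon
  rw [mem_slitPlane_iff] at hcon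
  push Not at hcon
  set y := D v * ℓ r / (D r * ℓ v) with hy
  have hyr : y = ((y.re : ℝ) : ℂ) := by
    apply Complex.ext <;> simp [hcon.2]
  -- s = - y.re
  obtain ⟨s, hs, hsy⟩ : ∃ s : ℝ, 0 ≤ s ∧ y = -(s : ℂ) := ⟨-y.re, by linarith [hcon.1], by
    rw [hyr]; simp⟩
  -- normalised vectors
  set v' := (ℓ v)⁻¹ • v with hv'
  set r' := (ℓ r)⁻¹ • r with hr'
  have hHv' : 0 < H v' := by
    rw [hv', hH.smul]
    exact mul_pos (pow_pos (norm_pos_iff.2 (inv_ne_zero hv0)) 2) hv
  have hHr' : 0 ≤ H r' := by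
    rw [hr', hH.smul]
    exact mul_nonneg (by positivity) hr
  have hdiff : H (v' - r') ≤ 0 := by
    apply hneg
    rw [map_sub, hv', hr', map_smul, map_smul, smul_eq_mul, smul_eq_mul, inv_mul_cancel₀ hv0,
      inv_mul_cancel₀ hr0, sub_self]
  have hpos : 0 < H (v' + (s : ℂ) • r') := by
    rw [hH.comb]
    nlinarith [mul_nonneg hs hHv'.le, mul_nonneg (add_nonneg hs (sq_nonneg s)) hHr',
      mul_nonneg hs (neg_nonneg.2 hdiff)]
  have hne := hD _ hpos
  have hexp : D (v' + (s : ℂ) • r') = (ℓ v)⁻¹ * D v + (s : ℂ) * ((ℓ r)⁻¹ * D r) := by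
    rw [hv', hr']
    simp only [map_add, map_smul, smul_eq_mul]
  rw [hexp] at hne
  apply hne
  have h1 : D v * ℓ r = -(s : ℂ) * (D r * ℓ v) := by
    rw [← hsy, hy, div_mul_cancel₀]
    exact mul_ne_zero hDr hv0
  have h2 : (ℓ v)⁻¹ * D v = -(s : ℂ) * ((ℓ r)⁻¹ * D r) := by
    field_simp
    linear_combination h1
  rw [h2]
  ring

/-- the real quadratic form of a complex 3 x 3 matrix -/
noncomputable def qf (A : Matrix (Fin 3) (Fin 3) ℂ) (v : Fin 3 → ℂ) : ℝ :=
  (∑ i, ∑ j, A i j * (starRingEnd ℂ (v i) * v j)).re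

theorem isHForm_qf (A : Matrix (Fin 3) (Fin 3) ℂ) : IsHForm (qf A) := by
  constructor
  · intro c v
    have h : (∑ i, ∑ j, A i j * (starRingEnd ℂ ((c • v) i) * (c • v) j)) =
        ((‖c‖ ^ 2 : ℝ) : ℂ) * ∑ i, ∑ j, A i j * (starRingEnd ℂ (v i) * v j) := by
      rw [Finset.mul_sum]
      refine Finset.sum_congr rfl fun i _ => ?_
      rw [Finset.mul_sum]
      refine Finset.sum_congr rfl fun j _ => ?_
      simp only [Pi.smul_apply, smul_eq_mul, map_mul]
      have hc : starRingEnd ℂ c * c = ((‖c‖ ^ 2 : ℝ) : ℂ) := by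
        rw [← Complex.normSq_eq_conj_mul_self, Complex.normSq_eq_norm_sq]
      rw [← hc]
      ring
    rw [qf, qf, h, Complex.re_ofReal_mul]
  · intro s v v'
    have h : (∑ i, ∑ j, A i j * (starRingEnd ℂ ((v + (s : ℂ) • v') i) * (v + (s : ℂ) • v') j)) =
        ((1 + s : ℝ) : ℂ) * (∑ i, ∑ j, A i j * (starRingEnd ℂ (v i) * v j)) +
        ((s + s ^ 2 : ℝ) : ℂ) * (∑ i, ∑ j, A i j * (starRingEnd ℂ (v' i) * v' j)) -
        (s : ℂ) * (∑ i, ∑ j, A i j * (starRingEnd ℂ ((v - v') i) * (v - v') j)) := by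
      simp only [Finset.mul_sum]
      rw [← Finset.sum_add_distrib, ← Finset.sum_sub_distrib]
      refine Finset.sum_congr rfl fun i _ => ?_
      rw [← Finset.sum_add_distrib, ← Finset.sum_sub_distrib]
      refine Finset.sum_congr rfl fun j _ => ?_
      simp only [Pi.add_apply, Pi.smul_apply, Pi.sub_apply, smul_eq_mul, map_add, map_mul, map_sub,
        Complex.conj_ofReal]
      push_cast
      ring
    rw [qf, h, Complex.sub_re, Complex.add_re, Complex.re_ofReal_mul, Complex.re_ofReal_mul,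
      Complex.re_ofReal_mul]
    rfl

/-- regularity of a vector valued function: every coordinate is continuous on the closure and
holomorphic inside -/
def Reg (Ω : Set ℂ) (v : ℂ → Fin 3 → ℂ) : Prop :=
  ∀ i, ContinuousOn (fun w => v w i) (closure Ω) ∧ DifferentiableOn ℂ (fun w => v w i) Ω

/-- The vectors reached by the automaton: states `S`, blocks `B`. -/
inductive Chain {S B : Type*} (src tgt : B → S) (M : B → ℂ → Matrix (Fin 3) (Fin 3) ℂ)
    (Start : S → (ℂ → Fin 3 → ℂ) → Prop) : S → (ℂ → Fin 3 → ℂ) → Prop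
  | start {s : S} {v : ℂ → Fin 3 → ℂ} (h : Start s v) : Chain src tgt M Start s v
  | step {v : ℂ → Fin 3 → ℂ} (b : B) (h : Chain src tgt M Start (src b) v) :
      Chain src tgt M Start (tgt b) (fun w => (M b w).mulVec (v w))

/-- A certificate at one point `w` of the frontier. -/
structure Cert {S B : Type*} (src tgt : B → S) (M : B → ℂ → Matrix (Fin 3) (Fin 3) ℂ)
    (Start : S → (ℂ → Fin 3 → ℂ) → Prop) (r : S → ℂ → Fin 3 → ℂ) (w : ℂ)
    (H : S → (Fin 3 → ℂ) → ℝ) : Prop where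
  herm : ∀ s, IsHForm (H s)
  neg : ∀ s v, v 0 = 0 → H s v ≤ 0
  block : ∀ b v, 0 < H (src b) v → 0 < H (tgt b) ((M b w).mulVec v)
  start : ∀ s v, Start s v → 0 < H s (v w)
  ref : ∀ s, 0 ≤ H s (r s w)

theorem Reg.mulVec {Ω : Set ℂ} {A : ℂ → Matrix (Fin 3) (Fin 3) ℂ} {v : ℂ → Fin 3 → ℂ}
    (hA : ∀ i j, ContinuousOn (fun w => A w i j) (closure Ω) ∧
      DifferentiableOn ℂ (fun w => A w i j) Ω) (hv : Reg Ω v) :
    Reg Ω (fun w => (A w).mulVec (v w)) := by
  intro i
  have h : (fun w => (A w).mulVec (v w) i) =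
      fun w => A w i 0 * v w 0 + A w i 1 * v w 1 + A w i 2 * v w 2 := by
    funext w
    simp [Matrix.mulVec, dotProduct, Fin.sum_univ_three]
  rw [h]
  exact ⟨(((hA i 0).1.mul (hv 0).1).add ((hA i 1).1.mul (hv 1).1)).add ((hA i 2).1.mul (hv 2).1),
    (((hA i 0).2.mul (hv 0).2).add ((hA i 1).2.mul (hv 1).2)).add ((hA i 2).2.mul (hv 2).2)⟩

/-- THE INDUCTION OVER WORDS: a pointwise ball certificate on the frontier and one reference vector
per state give zero freeness of the first coordinates of all chains on the closure. -/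
theorem zeroFree_of_certificate {S B : Type*} (src tgt : B → S)
    (M : B → ℂ → Matrix (Fin 3) (Fin 3) ℂ) (Start : S → (ℂ → Fin 3 → ℂ) → Prop)
    (r : S → ℂ → Fin 3 → ℂ) {Ω : Set ℂ} (hΩ : IsOpen Ω) (hb : Bornology.IsBounded Ω)
    (hM : ∀ b i j, ContinuousOn (fun w => M b w i j) (closure Ω) ∧
      DifferentiableOn ℂ (fun w => M b w i j) Ω)
    (hstart : ∀ s v, Start s v → Reg Ω v ∧ ∀ w ∈ closure Ω, v w 0 ≠ 0)
    (hr : ∀ s, Reg Ω (r s) ∧ ∀ w ∈ closure Ω, r s w 0 ≠ 0)
    (hbase : ∀ b, ∀ w ∈ closure Ω, (M b w).mulVec (r (src b) w) 0 ≠ 0)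
    (hcert : ∀ w ∈ frontier Ω, ∃ H : S → (Fin 3 → ℂ) → ℝ, Cert src tgt M Start r w H) :
    ∀ s v, Chain src tgt M Start s v → ∀ w ∈ closure Ω, v w 0 ≠ 0 := by
  have key : ∀ s v, Chain src tgt M Start s v → Reg Ω v ∧ (∀ w ∈ closure Ω, v w 0 ≠ 0) ∧
      (∀ w ∈ frontier Ω, ∀ H : S → (Fin 3 → ℂ) → ℝ, Cert src tgt M Start r w H →
        0 < H s (v w)) := by
    intro s v hc
    induction hc with
    | start h => exact ⟨(hstart _ _ h).1, (hstart _ _ h).2, fun w _ H hH => hH.start _ _ h⟩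
    | @step v b _ ih =>
      obtain ⟨hreg, hzf, hpos⟩ := ih
      have hreg' : Reg Ω (fun w => (M b w).mulVec (v w)) := hreg.mulVec (hM b)
      have hregr : Reg Ω (fun w => (M b w).mulVec (r (src b) w)) := (hr _).1.mulVec (hM b)
      refine ⟨hreg', ?_, fun w hw H hH => hH.block b _ (hpos w hw H hH)⟩
      have hslit := lemmaA hΩ hb
        (q := fun w => (M b w).mulVec (v w) 0 * r (src b) w 0 /
          ((M b w).mulVec (r (src b) w) 0 * v w 0))
        ((hreg' 0).1.mul ((hr (src b)).1 0).1 |>.div ((hregr 0).1.mul (hreg 0).1)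
          fun w hw => mul_ne_zero (hbase b w hw) (hzf w hw))
        ((hreg' 0).2.mul ((hr (src b)).1 0).2 |>.div ((hregr 0).2.mul (hreg 0).2)
          fun w hw => mul_ne_zero (hbase b w (subset_closure hw)) (hzf w (subset_closure hw)))
        (by
          intro w hw
          obtain ⟨H, hH⟩ := hcert w hw
          have hwc : w ∈ closure Ω := hw.1
          exact lemmaB (hH.herm (src b)) (LinearMap.proj 0)
            ((LinearMap.proj 0).comp (Matrix.mulVecLin (M b w)))
            (fun v hv => hH.neg (src b) v hv)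
            (fun v hv h0 => absurd (hH.neg (tgt b) _ h0) (not_le.2 (hH.block b v hv)))
            (hpos w hw H hH) (hH.ref (src b)) ((hr (src b)).2 w hwc) (hbase b w hwc))
      intro w hw h0
      have h1 := slitPlane_ne_zero (hslit w hw)
      apply h1
      show (M b w).mulVec (v w) 0 * r (src b) w 0 /
          ((M b w).mulVec (r (src b) w) 0 * v w 0) = 0
      have h0' : (M b w).mulVec (v w) 0 = 0 := h0
      rw [h0', zero_mul, zero_div]
  exact fun s v hc => (key s v hc).2.1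

end Pool.Agent.Helper39.C75
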