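import Pool.Agent.Helper39.C75.LineA

/-!
# The induction over words, general form (MP_c75db0_gt, helper39)

Every block may be treated in one of three ways: with its own reference vector, by comparison with
the coordinate `v 0`, or by comparison with another block of the same state and smaller rank
(for superblocks `A ^ n`).
-/

open Set Filter Topology Complex

namespace Pool.Agent.Helper39.C75

/-- A certificate at one point `w` of the frontier (no reference vectors). -/
structure Cert0 {S B : Type*} (src tgt : B → S) (M : B → ℂ → Matrix (Fin 3) (Fin 3) ℂ)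
    (Start : S → (ℂ → Fin 3 → ℂ) → Prop) (w : ℂ) (H : S → (Fin 3 → ℂ) → ℝ) : Prop where
  herm : ∀ s, IsHForm (H s)
  neg : ∀ s v, v 0 = 0 → H s v ≤ 0
  block : ∀ b v, 0 < H (src b) v → 0 < H (tgt b) ((M b w).mulVec v)
  start : ∀ s v, Start s v → 0 < H s (v w)

/-- The three ways to treat a block. -/
inductive Treat {S B : Type*} (src tgt : B → S) (M : B → ℂ → Matrix (Fin 3) (Fin 3) ℂ)
    (Start : S → (ℂ → Fin 3 → ℂ) → Prop) (Ω : Set ℂ) (rk : B → ℕ) (b : B) : Prop
  | ref (r : ℂ → Fin 3 → ℂ) (hr : Reg Ω r) (h0 : ∀ w ∈ closure Ω, r w 0 ≠ 0)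
      (hb : ∀ w ∈ closure Ω, (M b w).mulVec (r w) 0 ≠ 0)
      (hH : ∀ w ∈ frontier Ω, ∃ H, Cert0 src tgt M Start w H ∧ 0 ≤ H (src b) (r w))
  | self (g : ℂ → ℂ) (hgc : ContinuousOn g (closure Ω)) (hgd : DifferentiableOn ℂ g Ω)
      (hg0 : ∀ w ∈ closure Ω, g w ≠ 0)
      (h : ∀ w ∈ frontier Ω, ∃ H, Cert0 src tgt M Start w H ∧
        ∀ v, 0 < H (src b) v → (M b w).mulVec v 0 / (g w * v 0) ∈ slitPlane)
  | comp (b' : B) (hs : src b' = src b) (hlt : rk b' < rk b)
      (g : ℂ → ℂ) (hgc : ContinuousOn g (closure Ω)) (hgd : DifferentiableOn ℂ g Ω)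
      (hg0 : ∀ w ∈ closure Ω, g w ≠ 0)
      (h : ∀ w ∈ frontier Ω, ∃ H, Cert0 src tgt M Start w H ∧
        ∀ v, 0 < H (src b) v → (M b w).mulVec v 0 / (g w * (M b' w).mulVec v 0) ∈ slitPlane)

/-- THE INDUCTION OVER WORDS, general form. -/
theorem zeroFree_of_treat {S B : Type*} (src tgt : B → S)
    (M : B → ℂ → Matrix (Fin 3) (Fin 3) ℂ) (Start : S → (ℂ → Fin 3 → ℂ) → Prop)
    {Ω : Set ℂ} (hΩ : IsOpen Ω) (hb : Bornology.IsBounded Ω)
    (hM : ∀ b i j, ContinuousOn (fun w => M b w i j) (closure Ω) ∧
      DifferentiableOn ℂ (fun w => M b w i j) Ω)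
    (hstart : ∀ s v, Start s v → Reg Ω v ∧ ∀ w ∈ closure Ω, v w 0 ≠ 0)
    (rk : B → ℕ) (htreat : ∀ b, Treat src tgt M Start Ω rk b) :
    ∀ s v, Chain src tgt M Start s v → ∀ w ∈ closure Ω, v w 0 ≠ 0 := by
  have key : ∀ s v, Chain src tgt M Start s v → Reg Ω v ∧ (∀ w ∈ closure Ω, v w 0 ≠ 0) ∧
      (∀ w ∈ frontier Ω, ∀ H : S → (Fin 3 → ℂ) → ℝ, Cert0 src tgt M Start w H →
        0 < H s (v w)) := by
    intro s v hc
    induction hc with
    | start h => exact ⟨(hstart _ _ h).1, (hstart _ _ h).2, fun w _ H hH => hH.start _ _ h⟩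
    | @step v b _ ih =>
      obtain ⟨hreg, hzf, hpos⟩ := ih
      refine ⟨hreg.mulVec (hM b), ?_, fun w hw H hH => hH.block b _ (hpos w hw H hH)⟩
      have main : ∀ n : ℕ, ∀ b' : B, src b' = src b → rk b' = n →
          ∀ w ∈ closure Ω, (M b' w).mulVec (v w) 0 ≠ 0 := by
        intro n
        induction n using Nat.strong_induction_on with
        | _ n IH =>
          intro b₁ hs₁ hn
          have hreg' : Reg Ω (fun w => (M b₁ w).mulVec (v w)) := hreg.mulVec (hM b₁)
          have hpos₁ : ∀ w ∈ frontier Ω, ∀ H : S → (Fin 3 → ℂ) → ℝ,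
              Cert0 src tgt M Start w H → 0 < H (src b₁) (v w) := by
            intro w hw H hH
            rw [hs₁]
            exact hpos w hw H hH
          rcases htreat b₁ with ⟨r, hr, h0, hbr, hH⟩ | ⟨g, hgc, hgd, hg0, h⟩ |
            ⟨b', hs, hlt, g, hgc, hgd, hg0, h⟩
          · have hregr : Reg Ω (fun w => (M b₁ w).mulVec (r w)) := hr.mulVec (hM b₁)
            have hslit := lemmaA hΩ hb
              (q := fun w => (M b₁ w).mulVec (v w) 0 * r w 0 /
                ((M b₁ w).mulVec (r w) 0 * v w 0))
              ((hreg' 0).1.mul (hr 0).1 |>.div ((hregr 0).1.mul (hreg 0).1)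
                fun w hw => mul_ne_zero (hbr w hw) (hzf w hw))
              ((hreg' 0).2.mul (hr 0).2 |>.div ((hregr 0).2.mul (hreg 0).2)
                fun w hw => mul_ne_zero (hbr w (subset_closure hw)) (hzf w (subset_closure hw)))
              (by
                intro w hw
                obtain ⟨H, hC, hHr⟩ := hH w hw
                have hwc : w ∈ closure Ω := hw.1
                exact lemmaB (hC.herm (src b₁)) (LinearMap.proj 0)
                  ((LinearMap.proj 0).comp (Matrix.mulVecLin (M b₁ w)))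
                  (fun v hv => hC.neg (src b₁) v hv)
                  (fun v hv h0 => absurd (hC.neg (tgt b₁) _ h0) (not_le.2 (hC.block b₁ v hv)))
                  (hpos₁ w hw H hC) hHr (h0 w hwc) (hbr w hwc))
            intro w hw hz
            apply slitPlane_ne_zero (hslit w hw)
            show (M b₁ w).mulVec (v w) 0 * r w 0 / ((M b₁ w).mulVec (r w) 0 * v w 0) = 0
            rw [hz, zero_mul, zero_div]
          · have hslit := lemmaA hΩ hb
              (q := fun w => (M b₁ w).mulVec (v w) 0 / (g w * v w 0))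
              ((hreg' 0).1.div (hgc.mul (hreg 0).1)
                fun w hw => mul_ne_zero (hg0 w hw) (hzf w hw))
              ((hreg' 0).2.div (hgd.mul (hreg 0).2)
                fun w hw => mul_ne_zero (hg0 w (subset_closure hw)) (hzf w (subset_closure hw)))
              (by
                intro w hw
                obtain ⟨H, hC, hv⟩ := h w hw
                exact hv _ (hpos₁ w hw H hC))
            intro w hw hz
            apply slitPlane_ne_zero (hslit w hw)
            show (M b₁ w).mulVec (v w) 0 / (g w * v w 0) = 0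
            rw [hz, zero_div]
          · have hprev := IH (rk b') (hn ▸ hlt) b' (hs.trans hs₁) rfl
            have hreg'' : Reg Ω (fun w => (M b' w).mulVec (v w)) := hreg.mulVec (hM b')
            have hslit := lemmaA hΩ hb
              (q := fun w => (M b₁ w).mulVec (v w) 0 / (g w * (M b' w).mulVec (v w) 0))
              ((hreg' 0).1.div (hgc.mul (hreg'' 0).1)
                fun w hw => mul_ne_zero (hg0 w hw) (hprev w hw))
              ((hreg' 0).2.div (hgd.mul (hreg'' 0).2)
                fun w hw => mul_ne_zero (hg0 w (subset_closure hw)) (hprev w (subset_closure hw)))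
              (by
                intro w hw
                obtain ⟨H, hC, hv⟩ := h w hw
                exact hv _ (hpos₁ w hw H hC))
            intro w hw hz
            apply slitPlane_ne_zero (hslit w hw)
            show (M b₁ w).mulVec (v w) 0 / (g w * (M b' w).mulVec (v w) 0) = 0
            rw [hz, zero_div]
      exact main (rk b) b rfl rfl
  exact fun s v hc => (key s v hc).2.1

end Pool.Agent.Helper39.C75
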